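import Pool.Agent.Y645.RW.Stream

/-!
Claims made by a piece of the output.
-/

namespace Pool.Agent.Y645.RW

open Pool.Agent.H305rw (OutGraph IsStream walkLaw Machine steps steps_append_left
  steps_append_right card_event windows)

section
variable {e : ℕ}

/-- The pair `f` as a key and the bit claimed for it. -/
def toKey (f : Core e × Core e) : Key e × Bool :=
  ((f.1.2.1.2, f.2.2.1), xor f.1.2.2 f.2.2.2)

/-- The claims of a list of core vertices about the hidden bits of the half `h`. -/
def claims (h : Bool) (o : List (Core e)) : Finset (Key e × Bool) :=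
  (((steps o).filter fun f => f.1.1 = true ∧ f.1.2.1.1 = h).map toKey).toFinset

theorem mem_claims {h : Bool} {o : List (Core e)} {g : Key e × Bool} :
    g ∈ claims h o ↔ ∃ f ∈ steps o, f.1.1 = true ∧ f.1.2.1.1 = h ∧ toKey f = g := by
  simp only [claims, List.mem_toFinset, List.mem_map, List.mem_filter, decide_eq_true_eq]
  constructor
  · rintro ⟨f, ⟨h1, h2, h3⟩, h4⟩
    exact ⟨f, h1, h2, h3, h4⟩
  · rintro ⟨f, h1, h2, h3, h4⟩
    exact ⟨f, ⟨h1, h2, h3⟩, h4⟩

theorem claims_valid {x : Bits e} {o : List (Core e)} (h : Bool)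
    (ho : ∀ f ∈ steps o, f.2 = next x f.1 f.2.2.1) :
    ∀ g ∈ claims h o, sel x h g.1 = g.2 := by
  intro g hg
  obtain ⟨⟨⟨s, ⟨h', i⟩, b⟩, c'⟩, hf, h1, h2, rfl⟩ := mem_claims.1 hg
  simp only at h1 h2
  subst h1 h2
  have h3 := ho _ hf
  simp only [next, cond_true] at h3
  have h4 : c'.2.2 = xor b (hid x (h', i) c'.2.1) := congrArg (fun c : Core e => c.2.2) h3
  simp only [toKey, h4, hid]
  cases b <;> simp

/-- The keys of the disjoint consecutive pairs. -/
theorem prs_steps {x : Bits e} (N : ℕ) : ∀ W : List (Core e), W.length ≤ N →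
    (∀ f ∈ steps W, f.2 = next x f.1 f.2.2.1) → (∀ c L, W = c :: L → c.1 = true) →
    ∀ q ∈ prs (W.map fun c => c.2.1), ∃ f ∈ steps W, f.1.1 = true ∧ f.1.2.1 = q.1 ∧
      f.2.2.1 = q.2 := by
  induction N with
  | zero =>
    intro W hW _ _ q hq
    rw [List.length_eq_zero_iff.1 (Nat.le_zero.1 hW)] at hq
    simp [prs] at hq
  | succ N ih =>
    intro W hW hs hc q hq
    match W, hW, hs, hc, hq with
    | [], _, _, _, hq => simp [prs] at hq
    | [c], _, _, _, hq => simp [prs] at hq
    | c :: c' :: L, hW, hs, hc, hq =>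
      simp only [List.map_cons, prs, List.mem_cons] at hq
      have h1 : c.1 = true := hc c _ rfl
      have h2 : c' = next x c c'.2.1 := hs (c, c') (by simp [steps])
      rcases hq with rfl | hq
      · exact ⟨(c, c'), by simp [steps], h1, rfl, rfl⟩
      · have hsub : steps L ⊆ steps (c :: c' :: L) := by
          have := steps_append_right [c, c'] L
          exact this.subset
        obtain ⟨f, hf, h3⟩ := ih L (by simp only [List.length_cons] at hW; omega)
          (fun f hf => hs f (hsub hf)) (by
            intro c'' L' hL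
            have h4 : c'' = next x c' c''.2.1 := hs (c', c'') (by simp [hL, steps])
            have h5 : c'.1 = false := by rw [h2]; simp [next, h1]
            rw [h4]; simp [next, h5]) q hq
        exact ⟨f, hsub hf, h3⟩

/-- The keys of the half `h`. -/
def Ah (e : ℕ) (h : Bool) : Finset (Blk e × Blk e) := Finset.univ.filter fun q => q.1.1 = h

theorem claims_card {x : Bits e} (h : Bool) {W : List (Core e)}
    (hs : ∀ f ∈ steps W, f.2 = next x f.1 f.2.2.1) (hc : ∀ c L, W = c :: L → c.1 = true) :
    dst (Ah e h) (prs (W.map fun c => c.2.1)) ≤ (claims h W).card := by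
  refine le_trans (b := ((claims h W).image Prod.fst).card) ?_ Finset.card_image_le
  refine Finset.card_le_card_of_injOn (fun q => (q.1.2, q.2)) ?_ ?_
  · intro q hq
    rw [Finset.mem_coe, Finset.mem_inter, List.mem_toFinset] at hq
    obtain ⟨f, hf, h1, h2, h3⟩ := prs_steps _ W le_rfl hs hc q hq.2
    refine Finset.mem_coe.2 (Finset.mem_image.2 ⟨toKey f, mem_claims.2 ⟨f, hf, h1, ?_, rfl⟩, ?_⟩)
    · rw [h2]; simpa [Ah] using hq.1
    · simp [toKey, h2, h3]
  · rintro ⟨⟨a, b⟩, c⟩ hq ⟨⟨a', b'⟩, c'⟩ hq' hh
    rw [Finset.mem_coe, Finset.mem_inter] at hq hq'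
    have h1 : a = h := by simpa [Ah] using hq.1
    have h2 : a' = h := by simpa [Ah] using hq'.1
    simp only [Prod.mk.injEq] at hh
    rw [h1, h2, hh.1, hh.2]

theorem claims_mono (h : Bool) {W o : List (Core e)} (hsub : steps W ⊆ steps o) :
    claims h W ⊆ claims h o := by
  intro g hg
  obtain ⟨f, hf, h1⟩ := mem_claims.1 hg
  exact mem_claims.2 ⟨f, hsub hf, h1⟩

/-- The vertex at an odd place of a path that starts on side `false` is on side `true`. -/
theorem cpath_side (x : Bits e) (is : List (Blk e)) (c : Core e) (k : ℕ) (c' : Core e)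
    (hk : (cpath x c is)[k]? = some c') : c'.1 = xor c.1 (decide (k % 2 = 1)) := by
  induction is generalizing c k with
  | nil =>
    cases k with
    | zero => simp [cpath] at hk; simp [hk]
    | succ k => simp [cpath] at hk
  | cons i is ih =>
    cases k with
    | zero => simp [cpath] at hk; simp [hk]
    | succ k =>
      simp only [cpath, List.getElem?_cons_succ] at hk
      rw [ih (next x c i) k hk]
      simp only [next]
      rcases Nat.mod_two_eq_zero_or_one k with h | h
      · have : (k + 1) % 2 = 1 := by omega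
        simp [h, this]
      · have : (k + 1) % 2 = 0 := by omega
        simp [h, this]

end

/-- The good block sequences: each of the first `W` windows has many different keys of either
half. -/
def GoodL (e r W : ℕ) (is : List (Blk e)) : Prop :=
  ∀ j < W, ∀ h : Bool, r ≤ dst (Ah e h) (prs ((is.drop (j * (32 * r))).take (32 * r)))

theorem card_Ah (e : ℕ) (h : Bool) : (Ah e h).card = 2 * e ^ 2 := by
  have : Ah e h = (({h} : Finset Bool) ×ˢ (Finset.univ : Finset (Fin e))) ×ˢ
      (Finset.univ : Finset (Blk e)) := by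
    ext q
    simp only [Ah, Finset.mem_filter, Finset.mem_univ, true_and, Finset.mem_product,
      Finset.mem_singleton, and_true]
  rw [this, Finset.card_product, Finset.card_product]
  simp [Fintype.card_prod]
  ring

open Classical in
theorem bad_count {e r W l : ℕ} (hr : 128 * r ≤ 2 * e ^ 2) (hl : W * (32 * r) ≤ l) :
    Sg l (fun is : List (Blk e) => if GoodL e r W is then 0 else 1) * 16 ^ r ≤
      2 * W * Fintype.card (Blk e) ^ l := by
  have hD : Fintype.card (Blk e) = 2 * e := by simp [Fintype.card_prod]
  have h1 : Sg l (fun is : List (Blk e) => if GoodL e r W is then 0 else 1) ≤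
      ∑ j ∈ Finset.range W, ∑ h : Bool, Sg l (fun is : List (Blk e) =>
        if dst (Ah e h) (prs ((is.drop (j * (32 * r))).take (32 * r))) < r then 1 else 0) := by
    simp_rw [← Sg_sum]
    refine Sg_mono_length l fun is _ => ?_
    by_cases hg : GoodL e r W is
    · rw [if_pos hg]; exact Nat.zero_le _
    · rw [if_neg hg]
      unfold GoodL at hg
      push Not at hg
      obtain ⟨j, hj, h, hh⟩ := hg
      calc 1 = (if dst (Ah e h) (prs ((is.drop (j * (32 * r))).take (32 * r))) < r
              then 1 else 0) := by rw [if_pos hh]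
        _ ≤ ∑ h : Bool, (if dst (Ah e h) (prs ((is.drop (j * (32 * r))).take (32 * r))) < r
              then 1 else 0) :=
            Finset.single_le_sum (f := fun h : Bool =>
              (if dst (Ah e h) (prs ((is.drop (j * (32 * r))).take (32 * r))) < r
              then 1 else 0)) (fun _ _ => Nat.zero_le _) (Finset.mem_univ h)
        _ ≤ _ := Finset.single_le_sum (f := fun j => ∑ h : Bool,
              (if dst (Ah e h) (prs ((is.drop (j * (32 * r))).take (32 * r))) < r
              then 1 else 0)) (fun _ _ => Nat.zero_le _) (Finset.mem_range.2 hj)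
  have h2 : ∀ j ∈ Finset.range W, ∀ h : Bool, Sg l (fun is : List (Blk e) =>
        if dst (Ah e h) (prs ((is.drop (j * (32 * r))).take (32 * r))) < r then 1 else 0) *
          16 ^ r ≤ Fintype.card (Blk e) ^ l := by
    intro j hj h
    have hj' : j * (32 * r) + 32 * r ≤ l := by
      have : (j + 1) * (32 * r) ≤ W * (32 * r) :=
        Nat.mul_le_mul_right _ (Finset.mem_range.1 hj)
      have e1 : (j + 1) * (32 * r) = j * (32 * r) + 32 * r := by ring
      omega
    obtain ⟨b, hb⟩ := Nat.exists_eq_add_of_le hj'
    have e1 : l = j * (32 * r) + (32 * r + b) := by omega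
    have e2 := Sg_window (β := Blk e) (j * (32 * r)) (32 * r) b
      (fun v => if dst (Ah e h) (prs v) < r then 1 else 0)
    rw [e1, e2]
    have e3 : Sg (32 * r) (fun v : List (Blk e) => if dst (Ah e h) (prs v) < r then 1 else 0) =
        Sg (16 * r) (fun u : List (Blk e × Blk e) => if dst (Ah e h) u < r then 1 else 0) := by
      rw [show 32 * r = 2 * (16 * r) by ring]
      exact Sg_prs (16 * r) fun u => if dst (Ah e h) u < r then 1 else 0
    have e4 := few_distinct (κ := Blk e × Blk e) (A := Ah e h) (a := 2 * e ^ 2) (r := r)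
      (card_Ah e h) (by rw [Fintype.card_prod, hD]; ring) hr
    have e5 : (2 * (2 * e ^ 2)) ^ (16 * r) = Fintype.card (Blk e) ^ (32 * r) := by
      rw [hD, show 32 * r = 2 * (16 * r) by ring, pow_mul (2 * e) 2]
      congr 1
      ring
    rw [e3]
    calc _ = Fintype.card (Blk e) ^ (j * (32 * r)) * (Sg (16 * r)
          (fun u : List (Blk e × Blk e) => if dst (Ah e h) u < r then 1 else 0) * 16 ^ r) *
            Fintype.card (Blk e) ^ b := by ring
      _ ≤ Fintype.card (Blk e) ^ (j * (32 * r)) * (Fintype.card (Blk e) ^ (32 * r)) *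
            Fintype.card (Blk e) ^ b := by
          rw [← e5]
          refine Nat.mul_le_mul_right _ (Nat.mul_le_mul_left _ ?_)
          convert e4 using 5
      _ = _ := by rw [pow_add, pow_add]; ring
  calc _ ≤ (∑ j ∈ Finset.range W, ∑ h : Bool, Sg l (fun is : List (Blk e) =>
        if dst (Ah e h) (prs ((is.drop (j * (32 * r))).take (32 * r))) < r then 1 else 0)) *
          16 ^ r := Nat.mul_le_mul_right _ h1
    _ = ∑ j ∈ Finset.range W, ∑ h : Bool, Sg l (fun is : List (Blk e) =>
        if dst (Ah e h) (prs ((is.drop (j * (32 * r))).take (32 * r))) < r then 1 else 0) *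
          16 ^ r := by
        rw [Finset.sum_mul]
        exact Finset.sum_congr rfl fun j _ => by rw [Finset.sum_mul]
    _ ≤ ∑ j ∈ Finset.range W, ∑ _h : Bool, Fintype.card (Blk e) ^ l :=
        Finset.sum_le_sum fun j hj => Finset.sum_le_sum fun h _ => h2 j hj h
    _ = _ := by simp; ring

end Pool.Agent.Y645.RW
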