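import Pool.Agent.H305rw.Count

/-!
Sums over lists, and the number of distinct marked entries of a random list.
-/

namespace Pool.Agent.Y645.RW

open Pool.Agent.H305rw

/-- Sum of `f` over all lists of length `l` with entries in `β`. -/
def Sg {β : Type} [Fintype β] : ℕ → (List β → ℕ) → ℕ
  | 0, f => f []
  | l + 1, f => ∑ i, Sg l fun r => f (i :: r)

section
variable {β : Type} [Fintype β]

theorem Sg_add (l : ℕ) (f g : List β → ℕ) :
    Sg l (fun r => f r + g r) = Sg l f + Sg l g := by
  induction l generalizing f g with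
  | zero => simp [Sg]
  | succ l ih => simp only [Sg]; rw [← Finset.sum_add_distrib]; simp_rw [ih]

theorem Sg_sum {ι : Type} (s : Finset ι) (l : ℕ) (f : ι → List β → ℕ) :
    Sg l (fun r => ∑ i ∈ s, f i r) = ∑ i ∈ s, Sg l (f i) := by
  induction l generalizing f with
  | zero => simp [Sg]
  | succ l ih =>
    simp only [Sg]
    simp_rw [ih]
    rw [Finset.sum_comm]

theorem Sg_const (l : ℕ) (c : ℕ) :
    Sg l (fun _ : List β => c) = c * Fintype.card β ^ l := by
  induction l with
  | zero => simp [Sg]
  | succ l ih =>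
    simp only [Sg]; simp_rw [ih]; simp only [Finset.sum_const, Finset.card_univ, smul_eq_mul]
    ring

theorem Sg_mono_length (l : ℕ) {f g : List β → ℕ}
    (h : ∀ r, r.length = l → f r ≤ g r) : Sg l f ≤ Sg l g := by
  induction l generalizing f g with
  | zero => simpa [Sg] using h [] rfl
  | succ l ih =>
    simp only [Sg]
    exact Finset.sum_le_sum fun i _ => ih fun r hr => h _ (by simp [hr])

theorem Sg_congr_length (l : ℕ) {f g : List β → ℕ}
    (h : ∀ r, r.length = l → f r = g r) : Sg l f = Sg l g :=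
  le_antisymm (Sg_mono_length l fun r hr => (h r hr).le) (Sg_mono_length l fun r hr => (h r hr).ge)

theorem Sg_mul (l c : ℕ) (f : List β → ℕ) :
    Sg l (fun r => c * f r) = c * Sg l f := by
  induction l generalizing f with
  | zero => simp [Sg]
  | succ l ih => simp only [Sg]; simp_rw [ih]; rw [Finset.mul_sum]

theorem Sg_mul_right (l c : ℕ) (f : List β → ℕ) :
    Sg l (fun r => f r * c) = Sg l f * c := by
  simp_rw [mul_comm _ c]
  exact Sg_mul l c f

theorem Sg_take (w b : ℕ) (g : List β → ℕ) :
    Sg (w + b) (fun v => g (v.take w)) = Sg w g * Fintype.card β ^ b := by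
  induction w generalizing g with
  | zero => simp [Sg, Sg_const]
  | succ w ih =>
    rw [show w + 1 + b = (w + b) + 1 by omega]
    simp only [Sg, List.take_succ_cons]
    rw [Finset.sum_mul]
    exact Finset.sum_congr rfl fun i _ => ih fun r => g (i :: r)

theorem Sg_window (a w b : ℕ) (g : List β → ℕ) :
    Sg (a + (w + b)) (fun v => g ((v.drop a).take w)) =
      Fintype.card β ^ a * (Sg w g * Fintype.card β ^ b) := by
  induction a with
  | zero => simpa using Sg_take w b g
  | succ a ih =>
    rw [show a + 1 + (w + b) = (a + (w + b)) + 1 by omega]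
    simp only [Sg, List.drop_succ_cons, ih, Finset.sum_const, Finset.card_univ, smul_eq_mul]
    ring

end

/-- The consecutive disjoint pairs of a list. -/
def prs {β : Type} : List β → List (β × β)
  | a :: b :: L => (a, b) :: prs L
  | _ => []

theorem Sg_prs {β : Type} [Fintype β] (m : ℕ) (F : List (β × β) → ℕ) :
    Sg (2 * m) (fun v => F (prs v)) = Sg m F := by
  induction m generalizing F with
  | zero => simp [Sg, prs]
  | succ m ih =>
    rw [show 2 * (m + 1) = 2 * m + 1 + 1 by ring]
    simp only [Sg, prs]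
    rw [Fintype.sum_prod_type]
    exact Finset.sum_congr rfl fun a _ => Finset.sum_congr rfl fun b _ => ih fun u => F ((a, b) :: u)

/-- The number of different entries of `u` that lie in `A`. -/
def dst {κ : Type} [DecidableEq κ] (A : Finset κ) (u : List κ) : ℕ := (A ∩ u.toFinset).card

theorem dst_le {κ : Type} [DecidableEq κ] (A : Finset κ) (u : List κ) : dst A u ≤ u.length :=
  (Finset.card_le_card Finset.inter_subset_right).trans (List.toFinset_card_le u)

theorem dst_cons {κ : Type} [DecidableEq κ] (A : Finset κ) (k : κ) (u : List κ) :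
    dst A (k :: u) = dst A u + if k ∈ A \ u.toFinset then 1 else 0 := by
  unfold dst
  rw [List.toFinset_cons]
  by_cases h : k ∈ A
  · by_cases h2 : k ∈ u.toFinset
    · rw [Finset.insert_eq_of_mem h2, if_neg (by simp at h2; simp [h2]), add_zero]
    · rw [Finset.inter_insert_of_mem h, Finset.card_insert_of_notMem (by simp at h2; simp [h2]),
        if_pos (Finset.mem_sdiff.2 ⟨h, h2⟩)]
  · rw [Finset.inter_insert_of_notMem h, if_neg (by simp [h]), add_zero]

theorem sum_new {κ : Type} [Fintype κ] [DecidableEq κ] {A : Finset κ} {a m : ℕ}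
    (hA : A.card = a) (hκ : Fintype.card κ = 2 * a) (u : List κ) (hu : u.length = m) :
    ∑ k, 2 ^ (m + 1 - dst A (k :: u)) ≤ 2 ^ (m - dst A u) * (3 * a + m) := by
  have h1 : ∀ k, 2 ^ (m + 1 - dst A (k :: u)) + (if k ∈ A \ u.toFinset then 2 ^ (m - dst A u)
      else 0) = 2 * 2 ^ (m - dst A u) := by
    intro k
    have hd := dst_le A u
    rw [dst_cons]
    split_ifs with h
    · rw [show m + 1 - (dst A u + 1) = m - dst A u by omega]; ring
    · rw [add_zero, add_zero, show m + 1 - dst A u = (m - dst A u) + 1 by omega, pow_succ]; ring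
  have h2 : ∑ k, 2 ^ (m + 1 - dst A (k :: u)) + (A \ u.toFinset).card * 2 ^ (m - dst A u) =
      2 * a * (2 * 2 ^ (m - dst A u)) := by
    rw [← hκ, ← Finset.card_univ, ← smul_eq_mul (Finset.card _) (2 * 2 ^ (m - dst A u)),
      ← Finset.sum_const, ← smul_eq_mul (Finset.card _) (2 ^ (m - dst A u)), ← Finset.sum_const,
      ← Finset.sum_congr rfl fun k _ => h1 k, Finset.sum_add_distrib]
    congr 1
    rw [← Finset.sum_filter]
    congr 1
    ext k
    simp
  have h3 : a ≤ (A \ u.toFinset).card + m := by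
    have e1 := Finset.card_sdiff_add_card_inter A u.toFinset
    have e2 : (A ∩ u.toFinset).card ≤ m := by
      have := dst_le A u
      unfold dst at this
      omega
    omega
  have h4 : a * 2 ^ (m - dst A u) ≤ (A \ u.toFinset).card * 2 ^ (m - dst A u) +
      m * 2 ^ (m - dst A u) := by
    rw [← add_mul]; exact Nat.mul_le_mul_right _ h3
  nlinarith

theorem weight_bound {κ : Type} [Fintype κ] [DecidableEq κ] {A : Finset κ} {a M : ℕ}
    (hA : A.card = a) (hκ : Fintype.card κ = 2 * a) (m : ℕ) (hm : m ≤ M) :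
    Sg m (fun u => 2 ^ (m - dst A u)) ≤ (3 * a + M) ^ m := by
  induction m with
  | zero => simp [Sg]
  | succ m ih =>
    have ih' := ih (by omega)
    have e : Sg (m + 1) (fun u : List κ => 2 ^ (m + 1 - dst A u)) =
        Sg m (fun u => ∑ k, 2 ^ (m + 1 - dst A (k :: u))) := by
      rw [Sg_sum]
      rfl
    rw [e]
    calc _ ≤ Sg m (fun u => 2 ^ (m - dst A u) * (3 * a + M)) := by
          refine Sg_mono_length m fun u hu => (sum_new hA hκ u hu).trans ?_
          exact Nat.mul_le_mul_left _ (by omega)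
      _ = Sg m (fun u => 2 ^ (m - dst A u)) * (3 * a + M) := Sg_mul_right _ _ _
      _ ≤ (3 * a + M) ^ m * (3 * a + M) := Nat.mul_le_mul_right _ ih'
      _ = _ := (pow_succ _ _).symm

open Classical in
/-- Few distinct marked entries are exponentially rare. -/
theorem few_distinct {κ : Type} [Fintype κ] [DecidableEq κ] {A : Finset κ} {a r : ℕ}
    (hA : A.card = a) (hκ : Fintype.card κ = 2 * a) (hr : 128 * r ≤ a) :
    Sg (16 * r) (fun u => if dst A u < r then 1 else 0) * 16 ^ r ≤ (2 * a) ^ (16 * r) := by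
  set B := Sg (16 * r) (fun u : List κ => if dst A u < r then 1 else 0) with hB
  have h1 : B * 2 ^ (15 * r) ≤ (3 * a + 16 * r) ^ (16 * r) := by
    refine le_trans ?_ (weight_bound hA hκ (16 * r) le_rfl)
    rw [hB, ← Sg_mul_right]
    refine Sg_mono_length _ fun u _ => ?_
    by_cases h : dst A u < r
    · rw [if_pos h, one_mul]
      exact Nat.pow_le_pow_right (by norm_num) (by omega)
    · rw [if_neg h, zero_mul]; exact Nat.zero_le _
  have h2 : (3 * a + 16 * r) ^ (16 * r) * 8 ^ (16 * r) ≤ (25 * a) ^ (16 * r) := by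
    rw [← mul_pow]
    exact Nat.pow_le_pow_left (by omega) _
  have h3 : (25 * a) ^ (16 * r) ≤ 2 ^ (75 * r) * a ^ (16 * r) := by
    rw [mul_pow, pow_mul 25 16 r, pow_mul 2 75 r]
    exact Nat.mul_le_mul_right _ (Nat.pow_le_pow_left (by norm_num) r)
  have h4 : (B * 16 ^ r) * 2 ^ (59 * r) ≤ (2 * a) ^ (16 * r) * 2 ^ (59 * r) := by
    calc (B * 16 ^ r) * 2 ^ (59 * r) = (B * 2 ^ (15 * r)) * 8 ^ (16 * r) := by
          rw [show (16 : ℕ) = 2 ^ 4 by norm_num, show (8 : ℕ) = 2 ^ 3 by norm_num]
          simp only [← pow_mul, mul_assoc, ← pow_add]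
          congr 2
          ring
      _ ≤ (3 * a + 16 * r) ^ (16 * r) * 8 ^ (16 * r) := Nat.mul_le_mul_right _ h1
      _ ≤ (25 * a) ^ (16 * r) := h2
      _ ≤ 2 ^ (75 * r) * a ^ (16 * r) := h3
      _ = (2 * a) ^ (16 * r) * 2 ^ (59 * r) := by
          rw [mul_pow, mul_right_comm, ← pow_add]
          congr 2
          ring
  exact Nat.le_of_mul_le_mul_right h4 (by positivity)

end Pool.Agent.Y645.RW
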