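import Pool.Agent.H305rw.Defs

/-!
Simulation of random walks on undirected graphs, up to a given total variation distance.
-/

namespace Pool.Agent.Y645.RW

open MeasureTheory
open Pool.Agent.H305rw (OutGraph IsStream walkLaw Machine)

/-- Every undirected edge is presented in both orientations, one directly after the other. -/
def dbl {n : ℕ} (M : List (Fin n × Fin n)) : List (Fin n × Fin n) := M.flatMap fun e => [e, e.swap]

/-- The randomized algorithm `alg` with `p` passes simulates the random walk of length `l` on
undirected graphs without loops, up to total variation distance `η`: for every symmetric directed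
graph without loops, every order `M` of its undirected edges (each read in both orientations, one
directly after the other) and every start vertex, the total variation distance between the law of
its output and the law of the walk is at most `η`. -/
def SimulatesU {n : ℕ} {Ω σ : Type} [MeasurableSpace Ω] (μ : Measure Ω)
    (alg : Fin n → Ω → Machine n σ) (p l : ℕ) (η : ℝ) : Prop :=
  ∀ (G : OutGraph n) (M : List (Fin n × Fin n)) (v₀ : Fin n),
    (∀ u v, u ∈ G.out v → v ∈ G.out u) → (∀ v, v ∉ G.out v) → IsStream G (dbl M) →
    (∀ w : List (Fin n), MeasurableSet {ω | (alg v₀ ω).output p (dbl M) = w}) ∧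
    ∀ E : Set (List (Fin n)),
      |μ.real {ω | (alg v₀ ω).output p (dbl M) ∈ E} -
        ((walkLaw G l v₀).toOuterMeasure E).toReal| ≤ η

end Pool.Agent.Y645.RW
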