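import Pool.Agent.Y645.RW.Comb

/-!
The hard undirected graphs and their walks.
-/

namespace Pool.Agent.Y645.RW

open Pool.Agent.H305rw (OutGraph IsStream walkLaw Machine steps)
open scoped ENNReal

/-- Blocks: a half and an index. -/
abbrev Blk (e : ℕ) : Type := Bool × Fin e

/-- Core vertices: side, block, bit. -/
abbrev Core (e : ℕ) : Type := Bool × Blk e × Bool

/-- Names of the hidden bits of one half: index of the block on side `true`, block on side
`false`. -/
abbrev Key (e : ℕ) : Type := Fin e × Blk e

/-- The hidden bits of the two halves. -/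
abbrev Bits (e : ℕ) : Type := (Key e → Bool) × (Key e → Bool)

section
variable {e : ℕ}

def sel (x : Bits e) : Bool → Key e → Bool
  | false => x.1
  | true => x.2

/-- The hidden bit of a block on side `true` and a block on side `false`. -/
def hid (x : Bits e) (t f : Blk e) : Bool := sel x t.1 (t.2, f)

def next (x : Bits e) (c : Core e) (i : Blk e) : Core e :=
  (!c.1, i, xor c.2.2 (bif c.1 then hid x c.2.1 i else hid x i c.2.1))

def cpath (x : Bits e) : Core e → List (Blk e) → List (Core e)
  | c, [] => [c]
  | c, i :: is => c :: cpath x (next x c i) is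

theorem next_injective (x : Bits e) (c : Core e) : Function.Injective (next x c) := by
  intro i j h
  simp only [next, Prod.mk.injEq] at h
  exact h.2.1

theorem cpath_length (x : Bits e) (c : Core e) (is : List (Blk e)) :
    (cpath x c is).length = is.length + 1 := by
  induction is generalizing c with
  | nil => simp [cpath]
  | cons i is ih => simp [cpath, ih]

theorem cpath_blocks (x : Bits e) (c : Core e) (is : List (Blk e)) :
    (cpath x c is).map (fun c => c.2.1) = c.2.1 :: is := by
  induction is generalizing c with
  | nil => simp [cpath]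
  | cons i is ih => simp [cpath, ih, next]

theorem cpath_head (x : Bits e) (c : Core e) (is : List (Blk e)) :
    ∃ L, cpath x c is = c :: L := by
  cases is with
  | nil => exact ⟨[], rfl⟩
  | cons i is => exact ⟨_, rfl⟩

/-- Every consecutive pair of a path is a pair `(c, next x c i)`. -/
theorem cpath_steps (x : Bits e) (c : Core e) (is : List (Blk e)) :
    ∀ f ∈ steps (cpath x c is), f.2 = next x f.1 f.2.2.1 := by
  induction is generalizing c with
  | nil => simp [cpath, steps]
  | cons i is ih =>
    obtain ⟨L, hL⟩ := cpath_head x (next x c i) is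
    intro f hf
    simp only [cpath, hL, steps, List.mem_cons] at hf
    rcases hf with rfl | hf
    · simp [next]
    · exact ih (next x c i) f (by rw [hL]; exact hf)

end

section
variable {n e : ℕ} [NeZero e] (enc : Core e ↪ Fin n)

/-- The decoding of vertices. -/
noncomputable def dec : Fin n → Core e := Function.invFun enc

theorem dec_enc (c : Core e) : dec enc (enc c) = c :=
  Function.leftInverse_invFun enc.injective c

open Classical in
/-- The hard graph with hidden bits `x`: a bipartite graph on the core vertices and a complete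
graph on the other vertices. -/
noncomputable def hard (hE : ∀ v, ∃ u, u ∉ Set.range enc ∧ u ≠ v) (x : Bits e) : OutGraph n where
  out v := if v ∈ Set.range enc then Finset.univ.image (fun i => enc (next x (dec enc v) i))
    else Finset.univ.filter fun u => u ∉ Set.range enc ∧ u ≠ v
  out_nonempty v := by
    split_ifs
    · exact (Finset.univ_nonempty (α := Blk e)).image _
    · obtain ⟨u, hu⟩ := hE v
      exact ⟨u, by simpa using hu⟩

variable (hE : ∀ v, ∃ u, u ∉ Set.range enc ∧ u ≠ v)

theorem hard_out (x : Bits e) (c : Core e) :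
    (hard enc hE x).out (enc c) = Finset.univ.map ⟨fun i => enc (next x c i),
      enc.injective.comp (next_injective x c)⟩ := by
  classical
  simp only [hard, Set.mem_range_self, if_true, dec_enc]
  ext v
  simp

theorem hard_out_not (x : Bits e) (v : Fin n) (h : v ∉ Set.range enc) (u : Fin n) :
    u ∈ (hard enc hE x).out v ↔ u ∉ Set.range enc ∧ u ≠ v := by
  classical
  simp only [hard]
  rw [if_neg h, Finset.mem_filter]
  simp

/-- The edges between the two sides. -/
def Ed (x : Bits e) (u v : Fin n) : Prop :=
  ∃ (t f : Blk e) (b : Bool), u = enc (true, t, b) ∧ v = enc (false, f, xor b (hid x t f))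

theorem hard_mem (x : Bits e) (u v : Fin n) :
    v ∈ (hard enc hE x).out u ↔ Ed enc x u v ∨ Ed enc x v u ∨
      (u ∉ Set.range enc ∧ v ∉ Set.range enc ∧ v ≠ u) := by
  by_cases hu : u ∈ Set.range enc
  · obtain ⟨⟨s, k, b⟩, rfl⟩ := hu
    rw [hard_out]
    simp only [Finset.mem_map, Finset.mem_univ, true_and, Function.Embedding.coeFn_mk,
      Set.mem_range_self, not_true_eq_false, false_and, or_false]
    cases s
    · constructor
      · rintro ⟨i, rfl⟩
        right
        refine ⟨i, k, xor b (hid x i k), rfl, ?_⟩
        simp
      · rintro (⟨t, f, b', h1, -⟩ | ⟨t, f, b', rfl, h1⟩)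
        · have := enc.injective h1
          simp at this
        · have := enc.injective h1
          simp only [Prod.mk.injEq, true_and] at this
          obtain ⟨rfl, rfl⟩ := this
          refine ⟨t, ?_⟩
          simp [next]
    · constructor
      · rintro ⟨i, rfl⟩
        left
        exact ⟨k, i, b, rfl, rfl⟩
      · rintro (⟨t, f, b', h1, rfl⟩ | ⟨t, f, b', -, h1⟩)
        · have := enc.injective h1
          simp only [Prod.mk.injEq, true_and] at this
          obtain ⟨rfl, rfl⟩ := this
          exact ⟨f, rfl⟩
        · have := enc.injective h1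
          simp at this
  · rw [hard_out_not enc hE x u hu]
    constructor
    · intro h
      exact Or.inr (Or.inr ⟨hu, h⟩)
    · rintro (⟨t, f, b, rfl, -⟩ | ⟨t, f, b, -, rfl⟩ | h)
      · exact absurd ⟨_, rfl⟩ hu
      · exact absurd ⟨_, rfl⟩ hu
      · exact h.2

theorem hard_symm (x : Bits e) (u v : Fin n) :
    u ∈ (hard enc hE x).out v ↔ v ∈ (hard enc hE x).out u := by
  rw [hard_mem, hard_mem]
  constructor
  · rintro (h | h | ⟨h1, h2, h3⟩)
    · exact Or.inr (Or.inl h)
    · exact Or.inl h
    · exact Or.inr (Or.inr ⟨h2, h1, h3.symm⟩)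
  · rintro (h | h | ⟨h1, h2, h3⟩)
    · exact Or.inr (Or.inl h)
    · exact Or.inl h
    · exact Or.inr (Or.inr ⟨h2, h1, h3.symm⟩)

theorem hard_irrefl (x : Bits e) (v : Fin n) : v ∉ (hard enc hE x).out v := by
  rw [hard_mem]
  rintro (⟨t, f, b, h1, h2⟩ | ⟨t, f, b, h1, h2⟩ | h)
  · have := enc.injective (h1.symm.trans h2)
    simp at this
  · have := enc.injective (h1.symm.trans h2)
    simp at this
  · exact h.2.2 rfl

open Classical in
theorem walk_prob (x : Bits e) (l : ℕ) (c : Core e) (E : Set (List (Fin n))) :
    (walkLaw (hard enc hE x) l (enc c)).toOuterMeasure E =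
      (Sg l (fun is => if (cpath x c is).map enc ∈ E then 1 else 0) : ℕ) /
        (Fintype.card (Blk e) : ℝ≥0∞) ^ l := by
  induction l generalizing c E with
  | zero =>
    simp only [walkLaw, PMF.toOuterMeasure_pure_apply, Sg, cpath, List.map_cons, List.map_nil,
      pow_zero, div_one]
    split_ifs <;> simp
  | succ l ih =>
    have hd : (Fintype.card (Blk e) : ℝ≥0∞) ≠ 0 := by
      have : Fintype.card (Blk e) ≠ 0 := Fintype.card_ne_zero
      exact_mod_cast this
    have hd' : (Fintype.card (Blk e) : ℝ≥0∞) ≠ ⊤ := ENNReal.natCast_ne_top _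
    simp only [walkLaw, PMF.toOuterMeasure_bind_apply, PMF.uniformOfFinset_apply,
      PMF.toOuterMeasure_map_apply]
    rw [tsum_eq_sum (s := (hard enc hE x).out (enc c))]
    · simp only [hard_out, Finset.sum_map, Finset.card_map, Finset.card_univ,
        Finset.mem_map, Finset.mem_univ, true_and, Function.Embedding.coeFn_mk]
      simp_rw [ih]
      simp only [Sg, cpath, List.map_cons, Set.mem_preimage, Nat.cast_sum]
      rw [ENNReal.div_eq_inv_mul, Finset.mul_sum]
      refine Finset.sum_congr rfl fun i _ => ?_
      rw [if_pos ⟨i, rfl⟩, pow_succ, ENNReal.div_eq_inv_mul, ← mul_assoc,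
        ENNReal.mul_inv (Or.inl (pow_ne_zero _ hd)) (Or.inr hd),
        mul_comm (Fintype.card (Blk e) : ℝ≥0∞)⁻¹]
    · intro v hv
      rw [if_neg hv, zero_mul]

end

end Pool.Agent.Y645.RW
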