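import Pool.Agent.Y645.RW.Claims
import Pool.Agent.H305rw.Main

/-!
The trade-off between memory and passes, for all lengths.
-/

namespace Pool.Agent.Y645.RW

open Pool.Agent.H305rw (OutGraph IsStream walkLaw Machine steps steps_append_left
  steps_append_right card_event windows)
open MeasureTheory

theorem first_long {α : Type} (B : ℕ) (ps : List (List α))
    (h : ps.length * B < ps.flatten.length) :
    ∃ q₁ o q₂, ps = q₁ ++ o :: q₂ ∧ B < o.length ∧ q₁.flatten.length ≤ q₁.length * B := by
  induction ps with
  | nil => simp at h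
  | cons a ps ih =>
    by_cases ha : B < a.length
    · exact ⟨[], a, ps, rfl, ha, by simp⟩
    · simp only [List.length_cons, List.flatten_cons, List.length_append] at h
      have e1 : (ps.length + 1) * B = ps.length * B + B := by ring
      obtain ⟨q₁, o, q₂, h1, h2, h3⟩ := ih (by omega)
      refine ⟨a :: q₁, o, q₂, by rw [h1]; rfl, h2, ?_⟩
      simp only [List.length_cons, List.flatten_cons, List.length_append]
      have e2 : (q₁.length + 1) * B = q₁.length * B + B := by ring
      omega

theorem piece_claims {e : ℕ} {x : Bits e} {c₀ : Core e} (hc₀ : c₀.1 = false)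
    {is : List (Blk e)} {r p : ℕ} (hr : 1 ≤ r) (hG : GoodL e r (4 * p + 2) is)
    {o₁ o o₂ : List (Core e)} (ho : o₁ ++ o ++ o₂ = cpath x c₀ is)
    (h1 : o₁.length ≤ 2 * p * (64 * r - 1)) (h2 : 64 * r ≤ o.length) (h : Bool) :
    r ≤ (claims h o).card ∧ ∀ g ∈ claims h o, sel x h g.1 = g.2 := by
  set w := 32 * r with hw
  have hw0 : 0 < w := by omega
  set j := (o₁.length + w - 2) / w with hj
  have hj1 : j * w ≤ o₁.length + w - 2 := Nat.div_mul_le_self _ _
  have hj2 : o₁.length + w - 2 < j * w + w := by
    have h3 := Nat.lt_mul_div_succ (o₁.length + w - 2) hw0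
    have e : w * ((o₁.length + w - 2) / w + 1) = j * w + w := by rw [← hj]; ring
    rwa [e] at h3
  have hjW : j < 4 * p + 2 := by
    have h3 : 2 * p * (64 * r - 1) ≤ 2 * p * (64 * r) := Nat.mul_le_mul_left _ (by omega)
    have h4 : 2 * p * (64 * r) = 4 * p * w := by rw [hw]; ring
    have h5 : j * w < (4 * p + 2) * w := by
      have e : (4 * p + 2) * w = 4 * p * w + w + w := by ring
      omega
    exact Nat.lt_of_mul_lt_mul_right h5
  obtain ⟨a, ha⟩ := Nat.exists_eq_add_of_le (show o₁.length ≤ j * w + 1 by omega)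
  have haw : a + w ≤ o.length := by omega
  set Wd := (o.drop a).take w with hWd
  have e1 : ((cpath x c₀ is).drop (j * w + 1)).take w = Wd := by
    rw [← ho, ha, List.append_assoc, ← List.drop_drop, List.drop_left, List.drop_append_of_le_length
      (by omega), List.take_append_of_le_length (by rw [List.length_drop]; omega)]
  have hsub1 : steps Wd ⊆ steps o := by
    have e2 : o = o.take a ++ (Wd ++ (o.drop a).drop w) := by
      rw [hWd, List.take_append_drop, List.take_append_drop]
    rw [e2]
    exact ((steps_append_left Wd _).trans (steps_append_right (o.take a) _)).subset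
  have hval : ∀ f ∈ steps o, f.2 = next x f.1 f.2.2.1 := by
    intro f hf
    refine cpath_steps x c₀ is f ?_
    rw [← ho]
    exact ((steps_append_right o₁ o).trans (steps_append_left _ _)).subset hf
  refine ⟨?_, claims_valid h hval⟩
  have hblk : Wd.map (fun c => c.2.1) = (is.drop (j * w)).take w := by
    rw [← e1, List.map_take, List.map_drop, cpath_blocks, List.drop_succ_cons]
  have hhead : ∀ c L, Wd = c :: L → c.1 = true := by
    intro c L hcL
    have h3 : (cpath x c₀ is)[j * w + 1]? = some c := by
      have h4 : Wd[0]? = some c := by rw [hcL]; rfl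
      rw [← e1, List.getElem?_take, if_pos hw0, List.getElem?_drop, add_zero] at h4
      exact h4
    rw [cpath_side x is c₀ _ c h3, hc₀]
    have : (j * w + 1) % 2 = 1 := by
      have : j * w = 2 * (j * (16 * r)) := by rw [hw]; ring
      omega
    simp [this]
  calc r ≤ dst (Ah e h) (prs ((is.drop (j * w)).take w)) := hG j hjW h
    _ = dst (Ah e h) (prs (Wd.map fun c => c.2.1)) := by rw [hblk]
    _ ≤ (claims h Wd).card := claims_card h (fun f hf => hval f (hsub1 hf)) hhead
    _ ≤ (claims h o).card := Finset.card_le_card (claims_mono h hsub1)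

theorem ev_left {e : ℕ} (F : (Key e → Bool) → Finset (Key e × Bool)) (r : ℕ) :
    (Finset.univ.filter fun x : Bits e =>
      r ≤ (F x.1).card ∧ ∀ f ∈ F x.1, x.2 f.1 = f.2).card * 2 ^ r ≤ Fintype.card (Bits e) := by
  have h := card_event F r
  have e : Fintype.card (Bits e) = Fintype.card (Key e → Bool) * 2 ^ Fintype.card (Key e) := by
    rw [Fintype.card_prod]; congr 1; simp
  rw [e]
  exact h

theorem ev_right {e : ℕ} (F : (Key e → Bool) → Finset (Key e × Bool)) (r : ℕ) :
    (Finset.univ.filter fun x : Bits e =>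
      r ≤ (F x.2).card ∧ ∀ f ∈ F x.2, x.1 f.1 = f.2).card * 2 ^ r ≤ Fintype.card (Bits e) := by
  have h := ev_left F r
  refine le_trans (Nat.mul_le_mul_right _ ?_) h
  refine Finset.card_le_card_of_injOn Prod.swap ?_ (Prod.swap_injective.injOn)
  intro x hx
  simpa using hx

section
variable {n e : ℕ} [NeZero e] (enc : Core e ↪ Fin n)

/-- Good outputs: a walk of the hard graph whose windows have many different keys. -/
def Good (x : Bits e) (c₀ : Core e) (l r W : ℕ) : Set (List (Fin n)) :=
  {w | ∃ is : List (Blk e), is.length = l ∧ GoodL e r W is ∧ w = (cpath x c₀ is).map enc}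

theorem exists_event {σ : Type} (M : Machine n σ) {c₀ : Core e} (hc₀ : c₀.1 = false)
    {p l r : ℕ} (hr : 1 ≤ r) (hl : (2 * p + 1) * (64 * r) ≤ l) (x : Bits e)
    (hx : M.output p (dbl (edges enc x)) ∈ Good enc x c₀ l r (4 * p + 2)) :
    (∃ k < p, ∃ s : σ,
      (let F := claims true (((M.run (k * (2 * Fintype.card (Key e × Bool) +
          2 * (Fintype.card (Key e × Bool) + (rest enc).length))) s
            (dbl (half enc false x.1))).2).map (dec enc))
       r ≤ F.card ∧ ∀ f ∈ F, x.2 f.1 = f.2) ∨
      (let F := claims false (((M.run (k * (2 * Fintype.card (Key e × Bool) +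
          2 * (Fintype.card (Key e × Bool) + (rest enc).length)) +
            2 * Fintype.card (Key e × Bool)) s
            (dbl (half enc true x.2 ++ rest enc))).2).map (dec enc))
       r ≤ F.card ∧ ∀ f ∈ F, x.1 f.1 = f.2)) ∨
    ∃ s : σ, (let F := claims true ((M.final s).map (dec enc))
       r ≤ F.card ∧ ∀ f ∈ F, x.2 f.1 = f.2) := by
  obtain ⟨is, his, hG, hout⟩ := hx
  have hstream : dbl (edges enc x) =
      dbl (half enc false x.1) ++ dbl (half enc true x.2 ++ rest enc) := by
    rw [edges, dbl_append]
  obtain ⟨ps, h1, h2, h3⟩ := windows M (dbl (half enc false x.1))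
    (dbl (half enc true x.2 ++ rest enc)) p 0 M.init
  set ps' := ps ++ [M.final (M.run 0 M.init
    (List.replicate p (dbl (edges enc x))).flatten).1] with hps'
  have hflat : ps'.flatten = (cpath x c₀ is).map enc := by
    rw [← hout, hps', List.flatten_append, h1]
    simp [Machine.output, hstream]
  have hlen' : ps'.length = 2 * p + 1 := by rw [hps']; simp [h2]
  obtain ⟨q₁, o, q₂, hq, hol, hq1⟩ := first_long (64 * r - 1) ps' (by
    rw [hflat, List.length_map, cpath_length, his, hlen']
    have : (2 * p + 1) * (64 * r - 1) ≤ (2 * p + 1) * (64 * r) := Nat.mul_le_mul_left _ (by omega)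
    omega)
  have ho : o ∈ ps' := by rw [hq]; simp
  have hq1' : q₁.length ≤ 2 * p := by
    have := congrArg List.length hq
    rw [hlen', List.length_append, List.length_cons] at this
    omega
  have hpath : (q₁.flatten).map (dec enc) ++ o.map (dec enc) ++ (q₂.flatten).map (dec enc) =
      cpath x c₀ is := by
    have e1 : ((ps'.flatten).map (dec enc)) = cpath x c₀ is := by
      rw [hflat, List.map_map]
      conv_rhs => rw [← List.map_id (cpath x c₀ is)]
      refine List.map_congr_left fun c _ => ?_
      simp [dec_enc]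
    rw [← e1, hq]
    simp
  have key : ∀ h : Bool, r ≤ (claims h (o.map (dec enc))).card ∧
      ∀ f ∈ claims h (o.map (dec enc)), sel x h f.1 = f.2 := fun h =>
    piece_claims hc₀ hr hG hpath (by
      rw [List.length_map]
      exact hq1.trans (Nat.mul_le_mul_right _ hq1')) (by rw [List.length_map]; omega) h
  rcases List.mem_append.1 ho with ho | ho
  · obtain ⟨k, hk, s', h | h⟩ := h3 o ho
    · left
      refine ⟨k, hk, s', Or.inl ?_⟩
      rw [dbl_length, dbl_length, List.length_append, half_length, half_length, zero_add] at h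
      have := key true
      rw [h] at this
      exact this
    · left
      refine ⟨k, hk, s', Or.inr ?_⟩
      rw [dbl_length, dbl_length, List.length_append, half_length, half_length, zero_add] at h
      have := key false
      rw [h] at this
      exact this
  · right
    rw [List.mem_singleton] at ho
    have := key true
    rw [ho] at this
    exact ⟨_, this⟩

open Classical in
theorem count_good {σ : Type} [Fintype σ] (M : Machine n σ) {c₀ : Core e} (hc₀ : c₀.1 = false)
    {p l r : ℕ} (hr : 1 ≤ r) (hl : (2 * p + 1) * (64 * r) ≤ l) :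
    (Finset.univ.filter fun x : Bits e =>
      M.output p (dbl (edges enc x)) ∈ Good enc x c₀ l r (4 * p + 2)).card * 2 ^ r ≤
      (2 * p + 1) * Fintype.card σ * Fintype.card (Bits e) := by
  set FA : Fin p × σ → (Key e → Bool) → Finset (Key e × Bool) := fun q y =>
    claims true (((M.run (q.1 * (2 * Fintype.card (Key e × Bool) +
          2 * (Fintype.card (Key e × Bool) + (rest enc).length))) q.2
            (dbl (half enc false y))).2).map (dec enc)) with hFA
  set FB : Fin p × σ → (Key e → Bool) → Finset (Key e × Bool) := fun q y =>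
    claims false (((M.run (q.1 * (2 * Fintype.card (Key e × Bool) +
          2 * (Fintype.card (Key e × Bool) + (rest enc).length)) +
            2 * Fintype.card (Key e × Bool)) q.2
            (dbl (half enc true y ++ rest enc))).2).map (dec enc)) with hFB
  set FC : σ → (Key e → Bool) → Finset (Key e × Bool) := fun s _ =>
    claims true ((M.final s).map (dec enc)) with hFC
  set EA : Fin p × σ → Finset (Bits e) := fun q => Finset.univ.filter fun x : Bits e =>
      r ≤ (FA q x.1).card ∧ ∀ f ∈ FA q x.1, x.2 f.1 = f.2 with hEA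
  set EB : Fin p × σ → Finset (Bits e) := fun q => Finset.univ.filter fun x : Bits e =>
      r ≤ (FB q x.2).card ∧ ∀ f ∈ FB q x.2, x.1 f.1 = f.2 with hEB
  set EC : σ → Finset (Bits e) := fun q => Finset.univ.filter fun x : Bits e =>
      r ≤ (FC q x.1).card ∧ ∀ f ∈ FC q x.1, x.2 f.1 = f.2 with hEC
  have hsub : (Finset.univ.filter fun x : Bits e =>
      M.output p (dbl (edges enc x)) ∈ Good enc x c₀ l r (4 * p + 2)) ⊆
      Finset.univ.biUnion EA ∪ (Finset.univ.biUnion EB ∪ Finset.univ.biUnion EC) := by
    intro x hx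
    have hx' := (Finset.mem_filter.1 hx).2
    simp only [Finset.mem_union, Finset.mem_biUnion, Finset.mem_univ, true_and]
    rcases exists_event enc M hc₀ hr hl x hx' with ⟨k, hk, s, h | h⟩ | ⟨s, h⟩
    · exact Or.inl ⟨(⟨k, hk⟩, s), Finset.mem_filter.2 ⟨Finset.mem_univ _, h⟩⟩
    · exact Or.inr (Or.inl ⟨(⟨k, hk⟩, s), Finset.mem_filter.2 ⟨Finset.mem_univ _, h⟩⟩)
    · exact Or.inr (Or.inr ⟨s, Finset.mem_filter.2 ⟨Finset.mem_univ _, h⟩⟩)
  have h1 := Finset.card_le_card hsub
  have hA : (Finset.univ.biUnion EA).card * 2 ^ r ≤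
      (p * Fintype.card σ) * Fintype.card (Bits e) := by
    calc _ ≤ (∑ q, (EA q).card) * 2 ^ r := Nat.mul_le_mul_right _ Finset.card_biUnion_le
      _ = ∑ q, (EA q).card * 2 ^ r := Finset.sum_mul _ _ _
      _ ≤ ∑ _q : Fin p × σ, Fintype.card (Bits e) :=
        Finset.sum_le_sum fun q _ => ev_left (FA q) r
      _ = _ := by simp
  have hB : (Finset.univ.biUnion EB).card * 2 ^ r ≤
      (p * Fintype.card σ) * Fintype.card (Bits e) := by
    calc _ ≤ (∑ q, (EB q).card) * 2 ^ r := Nat.mul_le_mul_right _ Finset.card_biUnion_le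
      _ = ∑ q, (EB q).card * 2 ^ r := Finset.sum_mul _ _ _
      _ ≤ ∑ _q : Fin p × σ, Fintype.card (Bits e) :=
        Finset.sum_le_sum fun q _ => ev_right (FB q) r
      _ = _ := by simp
  have hC : (Finset.univ.biUnion EC).card * 2 ^ r ≤
      Fintype.card σ * Fintype.card (Bits e) := by
    calc _ ≤ (∑ q, (EC q).card) * 2 ^ r := Nat.mul_le_mul_right _ Finset.card_biUnion_le
      _ = ∑ q, (EC q).card * 2 ^ r := Finset.sum_mul _ _ _
      _ ≤ ∑ _q : σ, Fintype.card (Bits e) :=
        Finset.sum_le_sum fun q _ => ev_left (FC q) r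
      _ = _ := by simp
  have h2 : (Finset.univ.biUnion EA ∪ (Finset.univ.biUnion EB ∪ Finset.univ.biUnion EC)).card ≤
      (Finset.univ.biUnion EA).card + ((Finset.univ.biUnion EB).card +
        (Finset.univ.biUnion EC).card) :=
    (Finset.card_union_le _ _).trans (Nat.add_le_add_left (Finset.card_union_le _ _) _)
  calc _ ≤ ((Finset.univ.biUnion EA).card + ((Finset.univ.biUnion EB).card +
        (Finset.univ.biUnion EC).card)) * 2 ^ r := Nat.mul_le_mul_right _ (h1.trans h2)
    _ = (Finset.univ.biUnion EA).card * 2 ^ r + ((Finset.univ.biUnion EB).card * 2 ^ r +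
        (Finset.univ.biUnion EC).card * 2 ^ r) := by ring
    _ ≤ (p * Fintype.card σ) * Fintype.card (Bits e) + ((p * Fintype.card σ) *
        Fintype.card (Bits e) + Fintype.card σ * Fintype.card (Bits e)) :=
        Nat.add_le_add hA (Nat.add_le_add hB hC)
    _ = _ := by ring

end

end Pool.Agent.Y645.RW
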