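import Pool.Agent.Y645.RW.Graph
import Pool.Agent.Y645.RW.Def

/-!
Undirected streams of the hard graphs.
-/

namespace Pool.Agent.Y645.RW

open Pool.Agent.H305rw (OutGraph IsStream walkLaw Machine steps)

theorem dbl_append {n : ℕ} (M N : List (Fin n × Fin n)) : dbl (M ++ N) = dbl M ++ dbl N := by
  simp [dbl]

theorem dbl_length {n : ℕ} (M : List (Fin n × Fin n)) : (dbl M).length = 2 * M.length := by
  induction M with
  | nil => simp [dbl]
  | cons e M ih =>
    have : dbl (e :: M) = e :: e.swap :: dbl M := by simp [dbl]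
    rw [this]; simp only [List.length_cons, ih]; omega

theorem mem_dbl {n : ℕ} {M : List (Fin n × Fin n)} {f : Fin n × Fin n} :
    f ∈ dbl M ↔ f ∈ M ∨ f.swap ∈ M := by
  simp only [dbl, List.mem_flatMap, List.mem_cons, List.not_mem_nil, or_false]
  constructor
  · rintro ⟨a, ha, rfl | rfl⟩
    · exact Or.inl ha
    · right; simpa using ha
  · rintro (h | h)
    · exact ⟨f, h, Or.inl rfl⟩
    · exact ⟨f.swap, h, Or.inr (by simp)⟩

theorem dbl_nodup {n : ℕ} {M : List (Fin n × Fin n)} (h : M.Nodup) (h' : ∀ f ∈ M, f.swap ∉ M) :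
    (dbl M).Nodup := by
  induction M with
  | nil => simp [dbl]
  | cons a M ih =>
    have e : dbl (a :: M) = a :: a.swap :: dbl M := by simp [dbl]
    have hne : a ≠ a.swap := by
      intro hh
      exact h' a (by simp) (by rw [← hh]; simp)
    have h1 := List.nodup_cons.1 h
    have h2 : a.swap ∉ M := fun hh => h' a (by simp) (by simp [hh])
    have ih' := ih h1.2 fun f hf hf' => h' f (by simp [hf]) (by simp [hf'])
    rw [e, List.nodup_cons, List.nodup_cons, List.mem_cons, mem_dbl, mem_dbl]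
    refine ⟨?_, ?_, ih'⟩
    · rintro (hh | hh | hh)
      · exact hne hh
      · exact h1.1 hh
      · exact h2 hh
    · rintro (hh | hh)
      · exact h2 hh
      · rw [Prod.swap_swap] at hh
        exact h1.1 hh

section
variable {n e : ℕ} [NeZero e] (enc : Core e ↪ Fin n)

/-- The edges whose end on side `true` is in the half `h`. -/
noncomputable def half (h : Bool) (y : Key e → Bool) : List (Fin n × Fin n) :=
  ((Finset.univ : Finset (Key e × Bool)).toList.map fun k =>
    (enc (true, (h, k.1.1), k.2), enc (false, k.1.2, xor k.2 (y k.1))))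

open Classical in
/-- The edges between vertices outside the core. -/
noncomputable def rest : List (Fin n × Fin n) :=
  (Finset.univ.filter fun p : Fin n × Fin n =>
    p.1 ∉ Set.range enc ∧ p.2 ∉ Set.range enc ∧ p.1 < p.2).toList

omit [NeZero e] in
theorem half_length (h : Bool) (y : Key e → Bool) :
    (half enc h y).length = Fintype.card (Key e × Bool) := by
  rw [half, List.length_map, Finset.length_toList, Finset.card_univ]

omit [NeZero e] in
theorem mem_half {h : Bool} {y : Key e → Bool} {f : Fin n × Fin n} :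
    f ∈ half enc h y ↔ ∃ k : Key e × Bool,
      f = (enc (true, (h, k.1.1), k.2), enc (false, k.1.2, xor k.2 (y k.1))) := by
  simp only [half, List.mem_map, Finset.mem_toList, Finset.mem_univ, true_and]
  constructor <;> rintro ⟨k, hk⟩ <;> exact ⟨k, hk.symm⟩

omit [NeZero e] in
theorem half_nodup (h : Bool) (y : Key e → Bool) : (half enc h y).Nodup := by
  refine (Finset.nodup_toList _).map ?_
  rintro ⟨⟨a, b⟩, c⟩ ⟨⟨a', b'⟩, c'⟩ hh
  simp only [Prod.mk.injEq, EmbeddingLike.apply_eq_iff_eq, true_and] at hh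
  obtain ⟨⟨rfl, rfl⟩, rfl, -⟩ := hh
  rfl

omit [NeZero e] in
theorem mem_rest {f : Fin n × Fin n} :
    f ∈ rest enc ↔ f.1 ∉ Set.range enc ∧ f.2 ∉ Set.range enc ∧ f.1 < f.2 := by
  classical
  simp only [rest, Finset.mem_toList, Finset.mem_filter, Finset.mem_univ, true_and]

omit [NeZero e] in
theorem rest_nodup : (rest enc).Nodup := Finset.nodup_toList _

/-- The undirected edges of the hard graph. -/
noncomputable def edges (x : Bits e) : List (Fin n × Fin n) :=
  half enc false x.1 ++ (half enc true x.2 ++ rest enc)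

omit [NeZero e] in
theorem mem_edges (x : Bits e) (f : Fin n × Fin n) :
    f ∈ edges enc x ↔ Ed enc x f.1 f.2 ∨
      (f.1 ∉ Set.range enc ∧ f.2 ∉ Set.range enc ∧ f.1 < f.2) := by
  simp only [edges, List.mem_append, mem_half, mem_rest, Ed]
  constructor
  · rintro (⟨k, rfl⟩ | ⟨k, rfl⟩ | h)
    · exact Or.inl ⟨(false, k.1.1), k.1.2, k.2, rfl, rfl⟩
    · exact Or.inl ⟨(true, k.1.1), k.1.2, k.2, rfl, rfl⟩
    · exact Or.inr h
  · rintro (⟨⟨h, i⟩, f', b, h1, h2⟩ | h)
    · cases h
      · exact Or.inl ⟨((i, f'), b), Prod.ext h1 h2⟩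
      · exact Or.inr (Or.inl ⟨((i, f'), b), Prod.ext h1 h2⟩)
    · exact Or.inr (Or.inr h)

omit [NeZero e] in
theorem edges_nodup (x : Bits e) : (edges enc x).Nodup := by
  rw [edges, List.nodup_append', List.nodup_append']
  refine ⟨half_nodup enc _ _, ⟨half_nodup enc _ _, rest_nodup enc, ?_⟩, ?_⟩
  · intro f hf hf'
    obtain ⟨k, rfl⟩ := (mem_half enc).1 hf
    exact ((mem_rest enc).1 hf').1 ⟨_, rfl⟩
  · intro f hf hf'
    obtain ⟨k, rfl⟩ := (mem_half enc).1 hf
    rcases List.mem_append.1 hf' with h | h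
    · obtain ⟨k', h'⟩ := (mem_half enc).1 h
      simp at h'
    · exact ((mem_rest enc).1 h).1 ⟨_, rfl⟩

omit [NeZero e] in
theorem edges_swap (x : Bits e) : ∀ f ∈ edges enc x, f.swap ∉ edges enc x := by
  intro f hf hf'
  rw [mem_edges] at hf hf'
  rcases hf with ⟨t, k, b, h1, h2⟩ | ⟨h1, h2, h3⟩ <;>
    rcases hf' with ⟨t', k', b', h1', h2'⟩ | ⟨h1', h2', h3'⟩
  · have := enc.injective (h2.symm.trans h1')
    simp at this
  · exact h1' ⟨_, h2.symm⟩
  · exact h2 ⟨_, h1'.symm⟩
  · exact absurd h3 (not_lt.2 h3'.le)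

variable (hE : ∀ v, ∃ u, u ∉ Set.range enc ∧ u ≠ v)

theorem isStream (x : Bits e) : IsStream (hard enc hE x) (dbl (edges enc x)) := by
  refine ⟨dbl_nodup (edges_nodup enc x) (edges_swap enc x), ?_⟩
  rintro ⟨u, v⟩
  rw [mem_dbl, mem_edges, mem_edges, hard_mem]
  simp only [Prod.fst_swap, Prod.snd_swap]
  constructor
  · rintro ((h | ⟨h1, h2, h3⟩) | (h | ⟨h1, h2, h3⟩))
    · exact Or.inl h
    · exact Or.inr (Or.inr ⟨h1, h2, h3.ne'⟩)
    · exact Or.inr (Or.inl h)
    · exact Or.inr (Or.inr ⟨h2, h1, h3.ne⟩)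
  · rintro (h | h | ⟨h1, h2, h3⟩)
    · exact Or.inl (Or.inl h)
    · exact Or.inr (Or.inl h)
    · rcases lt_or_gt_of_ne h3 with h | h
      · exact Or.inr (Or.inr ⟨h2, h1, h⟩)
      · exact Or.inl (Or.inr ⟨h1, h2, h⟩)

end

end Pool.Agent.Y645.RW
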