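import Pool.Agent.Y645.RW.Main

/-!
The trade-off for randomized algorithms.
-/

namespace Pool.Agent.Y645.RW

open Pool.Agent.H305rw (OutGraph IsStream walkLaw Machine)
open MeasureTheory

section
variable {n e : ℕ} [NeZero e] (enc : Core e ↪ Fin n) (hE : ∀ v, ∃ u, u ∉ Set.range enc ∧ u ≠ v)

theorem walk_good (x : Bits e) (c₀ : Core e) {l r W : ℕ} (hr : 128 * r ≤ 2 * e ^ 2)
    (hl : W * (32 * r) ≤ l) :
    1 - 2 * W / (16 : ℝ) ^ r ≤
      ((walkLaw (hard enc hE x) l (enc c₀)).toOuterMeasure (Good enc x c₀ l r W)).toReal := by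
  classical
  set D := Fintype.card (Blk e) with hD
  have hD0 : 0 < D := Fintype.card_pos
  have h1 := bad_count (e := e) hr hl
  have h2 : Sg l (fun is : List (Blk e) => if GoodL e r W is then 1 else 0) ≤
      Sg l (fun is => if (cpath x c₀ is).map enc ∈ Good enc x c₀ l r W then 1 else 0) := by
    refine Sg_mono_length l fun is his => ?_
    by_cases hG : GoodL e r W is
    · rw [if_pos hG, if_pos ⟨is, his, hG, rfl⟩]
    · rw [if_neg hG]; exact Nat.zero_le _
  have h3 : Sg l (fun is : List (Blk e) => if GoodL e r W is then 1 else 0) +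
      Sg l (fun is : List (Blk e) => if GoodL e r W is then 0 else 1) = D ^ l := by
    rw [← Sg_add, ← one_mul (D ^ l), ← Sg_const l 1]
    refine Sg_congr_length l fun is _ => ?_
    by_cases hG : GoodL e r W is
    · simp [hG]
    · simp [hG]
  rw [walk_prob, ENNReal.toReal_div, ENNReal.toReal_pow, ENNReal.toReal_natCast,
    ENNReal.toReal_natCast, ← hD]
  have hDR : (0 : ℝ) < (D : ℝ) ^ l := by positivity
  have h16 : (0 : ℝ) < (16 : ℝ) ^ r := by positivity
  set G := Sg l (fun is : List (Blk e) => if GoodL e r W is then 1 else 0) with hG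
  set B := Sg l (fun is : List (Blk e) => if GoodL e r W is then 0 else 1) with hB
  have h1' : (B : ℝ) * 16 ^ r ≤ 2 * W * (D : ℝ) ^ l := by exact_mod_cast h1
  have h3' : (G : ℝ) + B = (D : ℝ) ^ l := by exact_mod_cast h3
  have h2' : (G : ℝ) ≤ ((Sg l (fun is =>
      if (cpath x c₀ is).map enc ∈ Good enc x c₀ l r W then 1 else 0) : ℕ) : ℝ) := by
    exact_mod_cast h2
  rw [le_div_iff₀ hDR, sub_mul, one_mul]
  have h4 : (B : ℝ) ≤ 2 * W / (16 : ℝ) ^ r * (D : ℝ) ^ l := by
    rw [div_mul_eq_mul_div, le_div_iff₀ h16]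
    exact h1'
  linarith

include enc hE in
theorem trade_core {Ω σ : Type} [MeasurableSpace Ω] [Fintype σ] (μ : Measure Ω)
    [IsProbabilityMeasure μ] (alg : Fin n → Ω → Machine n σ) {p l r : ℕ} {η : ℝ} (hr : 1 ≤ r)
    (hre : 64 * r ≤ e ^ 2) (hη : η < 1)
    (hσ : (2 * p + 1) * (Fintype.card σ : ℝ) * 2 < 2 ^ r * (1 - η))
    (hsim : SimulatesU μ alg p l η) : l < (2 * p + 1) * (64 * r) := by
  classical
  by_contra hcon
  push Not at hcon
  set c₀ : Core e := (false, (false, 0), false) with hc₀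
  set A : Bits e → Set Ω := fun x =>
    {ω | (alg (enc c₀) ω).output p (dbl (edges enc x)) ∈ Good enc x c₀ l r (4 * p + 2)} with hA
  have hs : ∀ x, _ := fun x => hsim (hard enc hE x) (edges enc x) (enc c₀)
    (fun u v h => (hard_symm enc hE x u v).1 h) (hard_irrefl enc hE x) (isStream enc hE x)
  have hmeas : ∀ x, MeasurableSet (A x) := by
    intro x
    have h1 := (hs x).1
    have h2 : A x = ⋃ w ∈ Good enc x c₀ l r (4 * p + 2),
        {ω | (alg (enc c₀) ω).output p (dbl (edges enc x)) = w} := by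
      ext ω
      simp [hA]
    rw [h2]
    exact MeasurableSet.biUnion (Set.to_countable _) fun w _ => h1 w
  have hσ1 : 1 ≤ Fintype.card σ := by
    have hΩ : Nonempty Ω := μ.nonempty_of_neZero
    exact Fintype.card_pos_iff.2 ⟨(alg (enc c₀) hΩ.some).init⟩
  have hσ1' : (1 : ℝ) ≤ (Fintype.card σ : ℝ) := by exact_mod_cast hσ1
  have hε : 2 * ((4 * p + 2 : ℕ) : ℝ) / (16 : ℝ) ^ r ≤ (1 - η) / 2 := by
    have h8 : (8 : ℝ) ≤ 8 ^ r := by
      calc (8 : ℝ) = 8 ^ 1 := by norm_num
        _ ≤ 8 ^ r := pow_le_pow_right₀ (by norm_num) hr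
    have h16 : (16 : ℝ) ^ r = 2 ^ r * 8 ^ r := by rw [← mul_pow]; norm_num
    have hp : (2 * (p : ℝ) + 1) * 2 ≤ 2 ^ r * (1 - η) := by
      have : (2 * (p : ℝ) + 1) * 1 ≤ (2 * p + 1) * (Fintype.card σ : ℝ) :=
        mul_le_mul_of_nonneg_left hσ1' (by positivity)
      linarith
    rw [div_le_iff₀ (by positivity), h16]
    push_cast
    have h2r : (0 : ℝ) < 2 ^ r := by positivity
    have h1 : 2 ^ r * (1 - η) * 8 ≤ 2 ^ r * (1 - η) * 8 ^ r :=
      mul_le_mul_of_nonneg_left h8 (mul_nonneg h2r.le (by linarith))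
    nlinarith
  have hlow : ∀ x, (1 - η) / 2 ≤ μ.real (A x) := by
    intro x
    have h1 := (hs x).2 (Good enc x c₀ l r (4 * p + 2))
    have h2 := walk_good enc hE x c₀ (l := l) (r := r) (W := 4 * p + 2) (by omega) (by
      calc (4 * p + 2) * (32 * r) = (2 * p + 1) * (64 * r) := by ring
        _ ≤ l := hcon)
    have h3 := (abs_le.1 h1).1
    have h4 : μ.real (A x) = μ.real {ω | (alg (enc c₀) ω).output p (dbl (edges enc x)) ∈
      Good enc x c₀ l r (4 * p + 2)} := rfl
    rw [h4]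
    linarith
  have hint : ∀ x, Integrable ((A x).indicator (fun _ => (1 : ℝ))) μ := fun x =>
    (integrable_const (1 : ℝ)).indicator (hmeas x)
  have hsum : ∫ ω, ∑ x, (A x).indicator (fun _ => (1 : ℝ)) ω ∂μ = ∑ x, μ.real (A x) := by
    rw [integral_finsetSum _ fun x _ => hint x]
    refine Finset.sum_congr rfl fun x _ => ?_
    exact integral_indicator_one (hmeas x)
  have hpt : ∀ ω, ∑ x, (A x).indicator (fun _ => (1 : ℝ)) ω ≤
      ((2 * p + 1) * Fintype.card σ * Fintype.card (Bits e) : ℕ) / (2 : ℝ) ^ r := by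
    intro ω
    have h1 := count_good enc (alg (enc c₀) ω) (c₀ := c₀) rfl (p := p) (l := l) hr hcon
    have h2 : ∑ x, (A x).indicator (fun _ => (1 : ℝ)) ω =
        ((Finset.univ.filter fun x : Bits e =>
          (alg (enc c₀) ω).output p (dbl (edges enc x)) ∈
            Good enc x c₀ l r (4 * p + 2)).card : ℝ) := by
      rw [Finset.card_filter, Nat.cast_sum]
      refine Finset.sum_congr rfl fun x _ => ?_
      simp only [Set.indicator, hA, Set.mem_ofPred_eq]
      split_ifs <;> simp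
    rw [h2, le_div_iff₀ (by positivity)]
    exact_mod_cast h1
  have hup : ∑ x, μ.real (A x) ≤
      ((2 * p + 1) * Fintype.card σ * Fintype.card (Bits e) : ℕ) / (2 : ℝ) ^ r := by
    rw [← hsum]
    calc _ ≤ ∫ _ω, ((2 * p + 1) * Fintype.card σ * Fintype.card (Bits e) : ℕ) / (2 : ℝ) ^ r ∂μ :=
          integral_mono (integrable_finsetSum _ fun x _ => hint x) (integrable_const _) hpt
      _ = _ := by simp
  have hlow' : (Fintype.card (Bits e) : ℝ) * ((1 - η) / 2) ≤ ∑ x, μ.real (A x) := by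
    calc _ = ∑ _x : Bits e, (1 - η) / 2 := by
          rw [Finset.sum_const, Finset.card_univ, nsmul_eq_mul]
      _ ≤ _ := Finset.sum_le_sum fun x _ => hlow x
  have hX : (0 : ℝ) < (Fintype.card (Bits e) : ℝ) := by exact_mod_cast Fintype.card_pos
  have hfin := hlow'.trans hup
  rw [le_div_iff₀ (by positivity)] at hfin
  push_cast at hfin
  have h5 : (Fintype.card (Bits e) : ℝ) * ((1 - η) / 2 * 2 ^ r) ≤
      (Fintype.card (Bits e) : ℝ) * ((2 * p + 1) * (Fintype.card σ : ℝ)) := by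
    calc _ = (Fintype.card (Bits e) : ℝ) * ((1 - η) / 2) * 2 ^ r := by ring
      _ ≤ _ := hfin
      _ = _ := by ring
  have h6 := le_of_mul_le_mul_left h5 hX
  linarith

end

/-- A set of core vertices with at least two other vertices. -/
theorem exists_enc {n e : ℕ} (h : 8 * e + 2 ≤ n) :
    ∃ enc : Core e ↪ Fin n, ∀ v, ∃ u, u ∉ Set.range enc ∧ u ≠ v := by
  classical
  have hc : Fintype.card (Core e) = 8 * e := by
    simp only [Fintype.card_prod, Fintype.card_bool, Fintype.card_fin]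
    ring
  obtain ⟨enc⟩ : Nonempty (Core e ↪ Fin n) := by
    refine Function.Embedding.nonempty_of_card_le ?_
    rw [hc, Fintype.card_fin]
    omega
  refine ⟨enc, fun v => ?_⟩
  by_contra hcon
  push Not at hcon
  have h1 : (Finset.univ : Finset (Fin n)) ⊆ insert v (Finset.univ.image enc) := by
    intro u _
    by_cases hu : u ∈ Set.range enc
    · obtain ⟨c, rfl⟩ := hu
      exact Finset.mem_insert_of_mem (Finset.mem_image_of_mem _ (Finset.mem_univ c))
    · rw [hcon u hu]; exact Finset.mem_insert_self _ _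
  have h2 := Finset.card_le_card h1
  have h3 : (insert v (Finset.univ.image enc)).card ≤ 8 * e + 1 := by
    refine (Finset.card_insert_le _ _).trans ?_
    refine Nat.succ_le_succ (Finset.card_image_le.trans ?_)
    rw [Finset.card_univ, hc]
  rw [Finset.card_univ, Fintype.card_fin] at h2
  omega

/-- Passes times memory is at least a constant times the length, on undirected graphs. -/
theorem tradeoff (η : ℝ) (hη : η < 1) : ∃ K : ℝ, 0 < K ∧ ∀ n l p S : ℕ, 2 ≤ n →
    K * (S + Real.log (n + l)) ≤ (n : ℝ) ^ 2 →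
    ∀ (Ω σ : Type) [MeasurableSpace Ω] [Fintype σ] (μ : Measure Ω) [IsProbabilityMeasure μ]
      (alg : Fin n → Ω → Machine n σ), Fintype.card σ ≤ 2 ^ S → SimulatesU μ alg p l η →
      (l : ℝ) ≤ K * (p + 1) * (S + Real.log (n + l)) := by
  obtain ⟨t, ht⟩ := pow_unbounded_of_one_lt (2 / (1 - η)) (one_lt_two)
  have hη0 : 0 < 1 - η := by linarith
  rw [div_lt_iff₀ hη0] at ht
  refine ⟨16384 * (6 + 2 * t), by positivity, ?_⟩
  intro n l p S hn2 hK Ω σ _ _ μ _ alg hσ hsim
  set Λ := Real.log (n + l) with hΛ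
  have hlog2 : (0.69 : ℝ) ≤ Real.log 2 := by
    have := Real.log_two_gt_d9
    linarith
  have hn2' : (2 : ℝ) ≤ n := by exact_mod_cast hn2
  have hΛ2 : Real.log 2 ≤ Λ := Real.log_le_log (by norm_num) (by
    have : (0 : ℝ) ≤ l := Nat.cast_nonneg l
    linarith)
  have ht0 : (0 : ℝ) ≤ t := Nat.cast_nonneg t
  have hS0 : (0 : ℝ) ≤ S := Nat.cast_nonneg S
  have hp0 : (0 : ℝ) ≤ p := Nat.cast_nonneg p
  -- `n` is large
  have hn18 : 18 ≤ n := by
    by_contra hcon
    push Not at hcon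
    have h1 : (n : ℝ) ≤ 17 := by exact_mod_cast Nat.lt_succ_iff.1 hcon
    have h2 : (n : ℝ) ^ 2 ≤ 289 := by nlinarith
    have h3 : 16384 * (6 + 2 * (t : ℝ)) * (S + Λ) ≥ 16384 * 6 * 0.69 := by
      have h4 : (0.69 : ℝ) ≤ S + Λ := by linarith
      have h5 : (6 : ℝ) ≤ 6 + 2 * t := by linarith
      nlinarith
    linarith
  rcases lt_or_ge l (p + 1) with hlp | hlp
  · have h1 : (l : ℝ) ≤ p + 1 := by exact_mod_cast hlp.le
    have h2 : (1 : ℝ) ≤ 16384 * (6 + 2 * (t : ℝ)) * (S + Λ) := by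
      have h4 : (0.69 : ℝ) ≤ S + Λ := by linarith
      have h5 : (6 : ℝ) ≤ 6 + 2 * t := by linarith
      nlinarith
    calc (l : ℝ) ≤ (p + 1) * 1 := by linarith
      _ ≤ (p + 1) * (16384 * (6 + 2 * (t : ℝ)) * (S + Λ)) :=
        mul_le_mul_of_nonneg_left h2 (by linarith)
      _ = _ := by ring
  · set e := (n - 2) / 8 with he
    have he1 : 1 ≤ e := by omega
    have : NeZero e := ⟨by omega⟩
    obtain ⟨enc, hE⟩ := exists_enc (n := n) (e := e) (by omega)
    set a := Nat.log 2 (p + 1) with ha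
    set r := S + (a + 2) + t with hr
    have hen : (n : ℝ) ≤ 16 * e := by
      have : n ≤ 16 * e := by omega
      exact_mod_cast this
    -- bounds for `r`
    have ha' : (a : ℝ) * Real.log 2 ≤ Λ := by
      have h1 : 2 ^ a ≤ p + 1 := Nat.pow_log_le_self 2 (by omega)
      have h2 : (2 : ℝ) ^ a ≤ n + l := by
        have h3 : 2 ^ a ≤ n + l := by omega
        exact_mod_cast h3
      calc (a : ℝ) * Real.log 2 = Real.log (2 ^ a) := (Real.log_pow _ _).symm
        _ ≤ Λ := Real.log_le_log (by positivity) h2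
    have hrR : (r : ℝ) ≤ (6 + 2 * t) * (S + Λ) := by
      have e1 : (r : ℝ) = S + (a + 2) + t := by rw [hr]; push_cast; ring
      have h1 : (a : ℝ) ≤ 2 * Λ := by
        have h2 : (a : ℝ) * 0.69 ≤ Λ :=
          (mul_le_mul_of_nonneg_left hlog2 (Nat.cast_nonneg a)).trans ha'
        have h3 : (0 : ℝ) ≤ Λ := by linarith
        linarith
      have h4 : (1 : ℝ) ≤ 2 * Λ := by linarith
      have h5 : (t : ℝ) ≤ t * (2 * Λ) := le_mul_of_one_le_right ht0 h4
      have h6 : 0 ≤ (t : ℝ) * S := mul_nonneg ht0 hS0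
      rw [e1]
      nlinarith
    have hre : 64 * r ≤ e ^ 2 := by
      have h1 : (64 * r : ℝ) ≤ e ^ 2 := by
        have h2 : (n : ℝ) ^ 2 ≤ 256 * (e : ℝ) ^ 2 := by
          have h3 : (0 : ℝ) ≤ n := by linarith
          nlinarith
        nlinarith
      exact_mod_cast h1
    have hcard : (2 * p + 1) * (Fintype.card σ : ℝ) * 2 < 2 ^ r * (1 - η) := by
      have h1 : p + 1 < 2 ^ (a + 1) := Nat.lt_pow_succ_log_self (by norm_num) (p + 1)
      have h2 : (2 * p + 1 : ℝ) < 2 ^ (a + 2) := by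
        have h3 : 2 * p + 1 < 2 ^ (a + 2) := by
          rw [show a + 2 = (a + 1) + 1 by omega, pow_succ]
          omega
        exact_mod_cast h3
      have h4 : (Fintype.card σ : ℝ) ≤ 2 ^ S := by exact_mod_cast hσ
      have h5 : (2 * p + 1) * (Fintype.card σ : ℝ) ≤ 2 ^ (a + 2) * 2 ^ S :=
        mul_le_mul h2.le h4 (by positivity) (by positivity)
      have h6 : (0 : ℝ) < 2 ^ (a + 2) * 2 ^ S := by positivity
      calc (2 * p + 1) * (Fintype.card σ : ℝ) * 2 ≤ 2 ^ (a + 2) * 2 ^ S * 2 := by linarith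
        _ < 2 ^ (a + 2) * 2 ^ S * (2 ^ t * (1 - η)) := mul_lt_mul_of_pos_left ht h6
        _ = 2 ^ r * (1 - η) := by rw [hr]; rw [pow_add _ (S + (a + 2)) t, pow_add _ S]; ring
    have hmain := trade_core enc hE μ alg (p := p) (l := l) (r := r) (η := η) (by omega) hre hη
      hcard hsim
    have h7 : (l : ℝ) ≤ (2 * p + 1) * (64 * r) := by exact_mod_cast hmain.le
    have h8 : (0 : ℝ) ≤ (6 + 2 * (t : ℝ)) * (S + Λ) := by
      have : (0 : ℝ) ≤ S + Λ := by linarith
      positivity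
    calc (l : ℝ) ≤ (2 * p + 1) * (64 * r) := h7
      _ ≤ (2 * (p + 1)) * (64 * ((6 + 2 * t) * (S + Λ))) := by
        refine mul_le_mul (by linarith) (by linarith) (by positivity) (by linarith)
      _ ≤ 16384 * (6 + 2 * t) * (p + 1) * (S + Λ) := by
        have h9 : (0 : ℝ) ≤ (p + 1) * ((6 + 2 * (t : ℝ)) * (S + Λ)) :=
          mul_nonneg (by linarith) h8
        nlinarith

end Pool.Agent.Y645.RW
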